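import Mathlib

/-!
A Tychonoff space `Pt` all of whose countable subsets are closed, together with a sequence
`a : ℕ → Pt` such that for every continuous real function `f` the differences
`f (a (2 n)) - f (a (2 n + 1))` tend to `0`.

`Pt` is a subspace of the Cantor cube indexed by `Kp = W × Pt`, whose projection to every countable
subcube is onto.
-/

set_option autoImplicit false
universe u

namespace Pool.Agent.Lib.MP_8bbda9_gt

open Set Topology Filter

/-- An uncountable type in universe `u`. -/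
abbrev Zt : Type u := ULift.{u} (Set ℕ)

/-- Countable subsets of `Zt`, ordered by inclusion. -/
abbrev W : Type u := {s : Set Zt.{u} // s.Countable}

/-- Letters used to code points. -/
abbrev Lt : Type u := W.{u} × W.{u} × Bool

/-- The points of the space: a rank and a code. -/
structure Pt : Type u where
  /-- the rank -/
  rk : W.{u}
  /-- the code -/
  code : ℕ → Lt.{u}

/-- The coordinates of the cube. -/
abbrev Kp : Type u := W.{u} × Pt.{u}

/-- A code is read as a sequence of pairs (coordinate, bit). -/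
def decode (c : ℕ → Lt.{u}) (k : ℕ) : Kp.{u} × Bool :=
  (((c (Nat.pair k 0)).1, ⟨(c (Nat.pair k 0)).2.1, fun j => c (Nat.pair k (j + 1))⟩),
    (c (Nat.pair k 0)).2.2)

lemma decode_surj (q : ℕ → Kp.{u} × Bool) : ∃ c, ∀ k, decode c k = q k := by
  refine ⟨fun n => if (Nat.unpair n).2 = 0 then
      ((q (Nat.unpair n).1).1.1, (q (Nat.unpair n).1).1.2.rk, (q (Nat.unpair n).1).2)
    else (q (Nat.unpair n).1).1.2.code ((Nat.unpair n).2 - 1), fun k => ?_⟩
  simp [decode]

/-- Every countable family in `W` has a strict upper bound. -/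
lemma exists_bound {T : Set W.{u}} (hT : T.Countable) : ∃ w : W.{u}, ∀ s ∈ T, s < w := by
  have hc : (⋃ s ∈ T, (s : Set Zt.{u})).Countable := hT.biUnion fun s _ => s.2
  have hu : Uncountable Zt.{u} := by
    have : Uncountable (Set ℕ) := by
      rw [← Cardinal.aleph0_lt_mk_iff]
      simpa using Cardinal.aleph0_lt_continuum
    exact (Equiv.ulift.{u} (α := Set ℕ)).symm.injective.uncountable
  obtain ⟨z, hz⟩ : ∃ z : Zt.{u}, z ∉ ⋃ s ∈ T, (s : Set Zt.{u}) := by
    by_contra! hcon
    have : (Set.univ : Set Zt.{u}).Countable := hc.mono fun x _ => hcon x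
    exact not_countable (Set.countable_univ_iff.mp this)
  refine ⟨⟨insert z (⋃ s ∈ T, (s : Set Zt.{u})), hc.insert z⟩, fun s hs => ?_⟩
  have h1 : (s : Set Zt.{u}) ⊆ insert z (⋃ s ∈ T, (s : Set Zt.{u})) := fun x hx =>
    Or.inr (Set.mem_biUnion hs hx)
  rw [← Subtype.coe_lt_coe]
  refine lt_of_le_of_ne h1 fun heq => hz ?_
  have : z ∈ (s : Set Zt.{u}) := by
    rw [heq]; exact Set.mem_insert _ _
  exact Set.mem_biUnion hs this

/-- The incidence relation between coordinates and points. -/
def M (α : Kp.{u}) (ξ : Pt.{u}) : Prop :=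
  (α.1 < ξ.rk ∧ ∃ k, decode ξ.code k = (α, true)) ∨ (ξ.rk < α.1 ∧ α.2 = ξ)

open Classical in
/-- The embedding in the Cantor cube. -/
noncomputable def e (ξ : Pt.{u}) (α : Kp.{u}) : Bool := decide (M α ξ)

lemma e_eq_true {ξ : Pt.{u}} {α : Kp.{u}} : e ξ α = true ↔ M α ξ := by
  simp [e]

/-- The projection to every countable subcube is onto. -/
lemma exists_pt {A : Set Kp.{u}} (hA : A.Countable) (p : Kp.{u} → Bool) :
    ∃ ξ : Pt.{u}, ∀ α ∈ A, e ξ α = p α := by
  rcases A.eq_empty_or_nonempty with rfl | hne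
  · exact ⟨⟨⟨∅, Set.countable_empty⟩, fun _ => (⟨∅, Set.countable_empty⟩, ⟨∅, Set.countable_empty⟩,
      true)⟩, by simp⟩
  obtain ⟨g, hg⟩ := hA.exists_eq_range hne
  obtain ⟨c, hc⟩ := decode_surj fun k => (g k, p (g k))
  obtain ⟨w, hw⟩ := exists_bound (T := Prod.fst '' A) (hA.image _)
  refine ⟨⟨w, c⟩, fun α hα => ?_⟩
  have hαw : α.1 < w := hw _ ⟨α, hα, rfl⟩
  rw [Bool.eq_iff_iff, e_eq_true]
  constructor
  · rintro (⟨-, k, hk⟩ | ⟨h, -⟩)
    · rw [hc k, Prod.mk.injEq] at hk
      rw [← hk.1, hk.2]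
    · exact absurd h (lt_asymm hαw)
  · intro hp
    rw [hg] at hα
    obtain ⟨k, rfl⟩ := hα
    exact Or.inl ⟨hαw, k, by rw [hc k, hp]⟩

/-- A point can be separated from a countable set by one coordinate. -/
lemma exists_coord {C : Set Pt.{u}} (hC : C.Countable) {x : Pt.{u}} (hx : x ∉ C) :
    ∃ α : Kp.{u}, e x α = true ∧ ∀ c ∈ C, e c α = false := by
  obtain ⟨w, hw⟩ := exists_bound (T := Pt.rk '' insert x C) ((hC.insert x).image _)
  refine ⟨(w, x), ?_, fun c hc => ?_⟩
  · rw [e_eq_true]
    exact Or.inr ⟨hw _ ⟨x, Set.mem_insert _ _, rfl⟩, rfl⟩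
  · have hcw : c.rk < w := hw _ ⟨c, Set.mem_insert_of_mem _ hc, rfl⟩
    rw [Bool.eq_false_iff, Ne, e_eq_true]
    rintro (⟨h, -⟩ | ⟨-, h⟩)
    · exact lt_asymm h hcw
    · exact hx (by rw [show x = c from h]; exact hc)

lemma e_injective : Function.Injective (e.{u}) := by
  intro x y hxy
  by_contra hne
  obtain ⟨α, h1, h2⟩ := exists_coord (Set.countable_singleton y) (x := x) (by simpa using hne)
  have h3 := h2 y rfl
  rw [← hxy, h1] at h3
  exact absurd h3 (by simp)

noncomputable instance : TopologicalSpace Pt.{u} := TopologicalSpace.induced e inferInstance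

lemma isEmbedding_e : IsEmbedding (e.{u}) := ⟨⟨rfl⟩, e_injective⟩

instance : T35Space Pt.{u} := isEmbedding_e.t35Space

lemma continuous_coord (α : Kp.{u}) : Continuous fun ξ : Pt.{u} => e ξ α :=
  (continuous_apply α).comp isEmbedding_e.continuous

/-- Basic neighbourhoods. -/
lemma exists_finset {x : Pt.{u}} {U : Set Pt.{u}} (hU : U ∈ 𝓝 x) :
    ∃ F : Finset Kp.{u}, ∀ y : Pt.{u}, (∀ α ∈ F, e y α = e x α) → y ∈ U := by
  rw [isEmbedding_e.nhds_eq_comap, Filter.mem_comap] at hU
  obtain ⟨V, hV, hVU⟩ := hU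
  rw [nhds_pi, Filter.mem_pi] at hV
  obtain ⟨I, hI, t, ht, htV⟩ := hV
  refine ⟨hI.toFinset, fun y hy => hVU (htV fun α hα => ?_)⟩
  rw [hy α (by simpa using hα)]
  exact mem_of_mem_nhds (ht α)

/-- Every countable subset of `Pt` is closed. -/
theorem isClosed_of_countable {C : Set Pt.{u}} (hC : C.Countable) : IsClosed C := by
  rw [← isOpen_compl_iff, isOpen_iff_mem_nhds]
  intro x hx
  obtain ⟨α, h1, h2⟩ := exists_coord hC (x := x) hx
  have hO : IsOpen {y : Pt.{u} | e y α = true} :=
    (isOpen_discrete {true}).preimage (continuous_coord α)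
  filter_upwards [hO.mem_nhds h1] with y hy hyC
  have := h2 y hyC
  rw [show e y α = true from hy] at this
  exact absurd this (by simp)

/-- The empty countable set. -/
def w0 : W.{u} := ⟨∅, Set.countable_empty⟩

/-- The special sequence. -/
noncomputable def a (n : ℕ) : Pt.{u} := ⟨w0, fun k => (w0, w0, decide (k = n))⟩

lemma a_injective : Function.Injective (a.{u}) := by
  intro m n h
  have h1 := congrArg (fun x : Pt.{u} => (x.code m).2.2) h
  simpa [a] using h1

lemma e_a {n : ℕ} {α : Kp.{u}} (h : e (a n) α = true) : α.2 = a n := by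
  rw [e_eq_true] at h
  rcases h with ⟨h, -⟩ | ⟨-, h⟩
  · exact absurd (Set.empty_subset _) (show α.1.1 ⊂ (∅ : Set Zt.{u}) from h).2
  · exact h

/-- For a finite set of coordinates, all but finitely many of the `a n` vanish there. -/
lemma finite_bad (F : Finset Kp.{u}) : {n : ℕ | ∃ α ∈ F, e (a n) α = true}.Finite := by
  have : {n : ℕ | ∃ α ∈ F, e (a n) α = true} ⊆ ⋃ α ∈ F, {n : ℕ | α.2 = a n} := by
    rintro n ⟨α, hα, h⟩
    exact Set.mem_biUnion (by simpa using hα) (e_a h)
  refine Set.Finite.subset (F.finite_toSet.biUnion fun α _ => ?_) this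
  refine Set.Subsingleton.finite fun m hm n hn => a_injective ?_
  rw [← show α.2 = a m from hm, ← show α.2 = a n from hn]

/-- Main lemma: for a continuous `f`, the differences along the special sequence tend to `0`. -/
theorem diff_small {f : Pt.{u} → ℝ} (hf : Continuous f) {ε : ℝ} (hε : 0 < ε) :
    {n : ℕ | ε ≤ |f (a (2 * n)) - f (a (2 * n + 1))|}.Finite := by
  by_contra hinf
  have hnb : ∀ x : Pt.{u}, ∃ F : Finset Kp.{u}, ∀ y : Pt.{u}, (∀ α ∈ F, e y α = e x α) →
      |f y - f x| < ε / 4 := by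
    intro x
    have hU : {y : Pt.{u} | |f y - f x| < ε / 4} ∈ 𝓝 x := by
      have := hf.continuousAt (x := x) (Metric.ball_mem_nhds (f x) (show 0 < ε / 4 by positivity))
      filter_upwards [this] with y hy
      simpa [Real.dist_eq] using hy
    exact exists_finset hU
  choose F hF using hnb
  -- the countable set of relevant coordinates
  set A : Set Kp.{u} := ⋃ n : ℕ, (F (a n) : Set Kp.{u}) with hA
  have hAc : A.Countable := Set.countable_iUnion fun n => (F (a n)).countable_toSet
  obtain ⟨x, hx⟩ := exists_pt hAc fun _ => false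
  -- all but finitely many `n` are good for `F x`
  have hfin := finite_bad (F x)
  have hfin' : {n : ℕ | (∃ α ∈ F x, e (a (2 * n)) α = true) ∨
      (∃ α ∈ F x, e (a (2 * n + 1)) α = true)}.Finite := by
    refine Set.Finite.union ?_ ?_
    · exact hfin.preimage (f := fun n : ℕ => 2 * n) (fun m _ n _ h => by simpa using h)
    · exact hfin.preimage (f := fun n : ℕ => 2 * n + 1) (fun m _ n _ h => by simpa using h)
  obtain ⟨n, hn, hgood⟩ : ∃ n, ε ≤ |f (a (2 * n)) - f (a (2 * n + 1))| ∧
      ¬ ((∃ α ∈ F x, e (a (2 * n)) α = true) ∨ (∃ α ∈ F x, e (a (2 * n + 1)) α = true)) := by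
    by_contra hcon
    refine hinf (hfin'.subset fun n hn => ?_)
    by_contra h2
    exact hcon ⟨n, hn, h2⟩
  rw [not_or] at hgood
  obtain ⟨hgood1, hgood2⟩ := hgood
  -- interpolation
  have key : ∀ m : ℕ, (∀ α ∈ F x, e (a m) α ≠ true) → |f (a m) - f x| < ε / 2 := by
    intro m hm
    classical
    obtain ⟨v, hv⟩ := exists_pt (A := A ∪ (F x : Set Kp.{u}))
      (hAc.union (F x).countable_toSet) fun α => if α ∈ A then e (a m) α else e x α
    have h1 : |f v - f (a m)| < ε / 4 := by
      refine hF (a m) v fun α hα => ?_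
      have hαA : α ∈ A := Set.mem_iUnion.mpr ⟨m, hα⟩
      rw [hv α (Or.inl hαA), if_pos hαA]
    have h2 : |f v - f x| < ε / 4 := by
      refine hF x v fun α hα => ?_
      rw [hv α (Or.inr hα)]
      split_ifs with hαA
      · rw [hx α hαA]
        simpa using hm α hα
      · rfl
    have h3 : f (a m) - f x = -(f v - f (a m)) + (f v - f x) := by ring
    rw [h3]
    refine (abs_add_le _ _).trans_lt ?_
    rw [abs_neg]
    linarith
  have h1 := key (2 * n) fun α hα h => hgood1 ⟨α, hα, h⟩
  have h2 := key (2 * n + 1) fun α hα h => hgood2 ⟨α, hα, h⟩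
  have h3 : f (a (2 * n)) - f (a (2 * n + 1)) =
      (f (a (2 * n)) - f x) - (f (a (2 * n + 1)) - f x) := by ring
  rw [h3] at hn
  have := abs_sub (f (a (2 * n)) - f x) (f (a (2 * n + 1)) - f x)
  linarith

end Pool.Agent.Lib.MP_8bbda9_gt
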