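import Mathlib
import Pool.Agent.Lib.MP_8bbda9_gt.Space

/-!
The function space `C_p(Pt)` is homeomorphic with `C_p(Pt ⊕ S)`, where `S` is a convergent sequence.
-/

set_option autoImplicit false
universe u

namespace Pool.Agent.Lib.MP_8bbda9_gt

open Set Topology Filter

/-- The convergent sequence. -/
abbrev Sq : Type u := OnePoint (ULift.{u} ℕ)

lemma exists_beta (n : ℕ) : ∃ α : Kp.{u}, e (a (2 * n)) α = true ∧
    ∀ m, m ≠ 2 * n → e (a m) α = false := by
  obtain ⟨α, h1, h2⟩ := exists_coord (C := a.{u} '' {m | m ≠ 2 * n}) (x := a (2 * n))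
    ((Set.to_countable _).image _) (by
      rintro ⟨m, hm, h⟩
      exact hm (a_injective h))
  exact ⟨α, h1, fun m hm => h2 _ ⟨m, hm, rfl⟩⟩

/-- The coordinate isolating `a (2 n)` in the special sequence. -/
noncomputable def beta (n : ℕ) : Kp.{u} := (exists_beta n).choose

lemma beta_self (n : ℕ) : e (a (2 * n)) (beta.{u} n) = true := (exists_beta n).choose_spec.1

lemma beta_ne {n m : ℕ} (h : m ≠ 2 * n) : e (a m) (beta.{u} n) = false :=
  (exists_beta n).choose_spec.2 m h

open Classical in
/-- The first index `n` for which the point lies in the `n`-th clopen set. -/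
noncomputable def idx (x : Pt.{u}) : Option ℕ :=
  if h : ∃ n, e x (beta n) = true then some (Nat.find h) else none

lemma idx_eq_none {x : Pt.{u}} : idx x = none ↔ ∀ n, e x (beta n) = false := by
  unfold idx
  split_ifs with h
  · simp only [false_iff, not_forall]
    obtain ⟨n, hn⟩ := h
    exact ⟨n, by simp [hn]⟩
  · simp only [true_iff]
    intro n
    by_contra hn
    exact h ⟨n, by simpa using hn⟩

lemma idx_eq_some {x : Pt.{u}} {n : ℕ} :
    idx x = some n ↔ e x (beta n) = true ∧ ∀ m < n, e x (beta m) = false := by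
  unfold idx
  split_ifs with h
  · rw [Option.some.injEq, Nat.find_eq_iff]
    simp
  · simp only [false_iff, not_and]
    intro h1
    exact absurd ⟨n, h1⟩ h

lemma idx_even (n : ℕ) : idx (a.{u} (2 * n)) = some n := by
  rw [idx_eq_some]
  exact ⟨beta_self n, fun m hm => beta_ne (by omega)⟩

lemma idx_odd (n : ℕ) : idx (a.{u} (2 * n + 1)) = none := by
  rw [idx_eq_none]
  exact fun m => beta_ne (by omega)

/-- The extension operator. -/
noncomputable def E (t : ℕ → ℝ) (x : Pt.{u}) : ℝ := (idx x).elim 0 t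

lemma E_even (t : ℕ → ℝ) (n : ℕ) : E t (a.{u} (2 * n)) = t n := by simp [E, idx_even]

lemma E_odd (t : ℕ → ℝ) (n : ℕ) : E t (a.{u} (2 * n + 1)) = 0 := by simp [E, idx_odd]

lemma isOpen_coord (α : Kp.{u}) (b : Bool) : IsOpen {y : Pt.{u} | e y α = b} :=
  (isOpen_discrete {b}).preimage (continuous_coord α)

lemma continuous_E {t : ℕ → ℝ} (ht : Tendsto t atTop (𝓝 0)) : Continuous (E.{u} t) := by
  rw [continuous_iff_continuousAt]
  intro x
  rcases hx : idx x with _ | n
  · have hx' := idx_eq_none.mp hx
    have hE : E t x = 0 := by simp [E, hx]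
    unfold ContinuousAt
    rw [hE, Metric.tendsto_nhds]
    intro ε hε
    obtain ⟨N, hN⟩ := Filter.eventually_atTop.mp ((Metric.tendsto_nhds.mp ht) ε hε)
    have hU : ∀ᶠ y in 𝓝 x, ∀ m ∈ Finset.range N, e y (beta m) = false := by
      rw [Filter.eventually_all_finset]
      intro m _
      exact (isOpen_coord (beta m) false).mem_nhds (hx' m)
    filter_upwards [hU] with y hy
    rcases hy' : idx y with _ | k
    · simpa [E, hy'] using hε
    · have h1 := (idx_eq_some.mp hy').1
      have hk : N ≤ k := by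
        by_contra hlt
        have := hy k (by simpa using hlt)
        rw [h1] at this
        exact absurd this (by simp)
      simpa [E, hy'] using hN k hk
  · have hx' := idx_eq_some.mp hx
    have hU : ∀ᶠ y in 𝓝 x, e y (beta n) = true ∧ ∀ m ∈ Finset.range n, e y (beta m) = false := by
      refine Filter.Eventually.and ((isOpen_coord (beta n) true).mem_nhds hx'.1) ?_
      rw [Filter.eventually_all_finset]
      intro m hm
      exact (isOpen_coord (beta m) false).mem_nhds (hx'.2 m (by simpa using hm))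
    have hEq : ∀ᶠ y in 𝓝 x, E t y = E t x := by
      filter_upwards [hU] with y hy
      have : idx y = some n := idx_eq_some.mpr ⟨hy.1, fun m hm => hy.2 m (by simpa using hm)⟩
      simp [E, this, hx]
    exact (continuousAt_const (y := E t x)).congr (hEq.mono fun y hy => hy.symm)

/-- The differences along the special sequence. -/
noncomputable def T (f : Pt.{u} → ℝ) (n : ℕ) : ℝ := f (a (2 * n)) - f (a (2 * n + 1))

lemma tendsto_T {f : Pt.{u} → ℝ} (hf : Continuous f) : Tendsto (T f) atTop (𝓝 0) := by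
  rw [Metric.tendsto_nhds]
  intro ε hε
  have h := diff_small hf hε
  rw [← Nat.cofinite_eq_atTop]
  filter_upwards [h.compl_mem_cofinite] with n hn
  simpa [T, Real.dist_eq] using hn

/-- Merging two sequences and a number. -/
noncomputable def merge (s : ℕ → ℝ) (c : ℝ) (r : ℕ → ℝ) (m : ℕ) : ℝ :=
  if m % 2 = 0 then s (m / 2) else if m = 1 then c else r ((m - 3) / 2)

lemma merge_even (s : ℕ → ℝ) (c : ℝ) (r : ℕ → ℝ) (n : ℕ) : merge s c r (2 * n) = s n := by
  simp [merge]

lemma merge_one (s : ℕ → ℝ) (c : ℝ) (r : ℕ → ℝ) : merge s c r 1 = c := by simp [merge]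

lemma merge_odd (s : ℕ → ℝ) (c : ℝ) (r : ℕ → ℝ) (n : ℕ) : merge s c r (2 * n + 3) = r n := by
  have h1 : (2 * n + 3) % 2 ≠ 0 := by omega
  have h2 : 2 * n + 3 ≠ 1 := by omega
  have h3 : (2 * n + 3 - 3) / 2 = n := by omega
  unfold merge
  rw [if_neg h1, if_neg h2, h3]

lemma tendsto_merge {s r : ℕ → ℝ} {c : ℝ} (hs : Tendsto s atTop (𝓝 0))
    (hr : Tendsto r atTop (𝓝 0)) : Tendsto (merge s c r) atTop (𝓝 0) := by
  rw [Metric.tendsto_nhds] at *
  intro ε hε
  obtain ⟨N1, h1⟩ := Filter.eventually_atTop.mp (hs ε hε)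
  obtain ⟨N2, h2⟩ := Filter.eventually_atTop.mp (hr ε hε)
  refine Filter.eventually_atTop.mpr ⟨2 * N1 + 2 * N2 + 5, fun m hm => ?_⟩
  unfold merge
  split_ifs with h3 h4
  · exact h1 _ (by omega)
  · omega
  · exact h2 _ (by omega)

/-- The part of the image living on the convergent sequence. -/
noncomputable def hS (t : ℕ → ℝ) (y : Sq.{u}) : ℝ :=
  OnePoint.elim y (t 1) (fun n : ULift.{u} ℕ => t 1 + t (2 * n.down + 3))

lemma tendsto_down : Tendsto (ULift.down : ULift.{u} ℕ → ℕ) cofinite atTop := by
  rw [← Nat.cofinite_eq_atTop]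
  exact ULift.down_injective.tendsto_cofinite

lemma continuous_hS {t : ℕ → ℝ} (ht : Tendsto t atTop (𝓝 0)) : Continuous (hS.{u} t) := by
  rw [OnePoint.continuous_iff_from_discrete]
  have h1 : Tendsto (fun n : ℕ => 2 * n + 3) atTop atTop :=
    Filter.tendsto_atTop_mono (fun n => show n ≤ 2 * n + 3 by omega) tendsto_id
  have h2 : Tendsto (fun n : ULift.{u} ℕ => t 1 + t (2 * n.down + 3)) cofinite (𝓝 (t 1 + 0)) :=
    tendsto_const_nhds.add ((ht.comp h1).comp tendsto_down)
  simpa [hS] using h2

/-- The forward map on functions. -/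
noncomputable def fwd (f : Pt.{u} → ℝ) : Pt.{u} ⊕ Sq.{u} → ℝ :=
  Sum.elim (fun x => f x - E (T f) x + E (fun n => T f (2 * n)) x) (hS (T f))

lemma continuous_fwd {f : Pt.{u} → ℝ} (hf : Continuous f) : Continuous (fwd f) := by
  have h := tendsto_T hf
  have h1 : Tendsto (fun n : ℕ => 2 * n) atTop atTop :=
    Filter.tendsto_atTop_mono (fun n => show n ≤ 2 * n by omega) tendsto_id
  exact ((hf.sub (continuous_E h)).add (continuous_E (h.comp h1))).sumElim (continuous_hS h)

/-- The sequence attached to a function on the sum. -/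
noncomputable def tt (g : Pt.{u} ⊕ Sq.{u} → ℝ) : ℕ → ℝ :=
  merge (T fun x => g (Sum.inl x)) (g (Sum.inr OnePoint.infty))
    (fun n => g (Sum.inr ((ULift.up n : ULift.{u} ℕ) : Sq.{u})) - g (Sum.inr OnePoint.infty))

/-- The backward map on functions. -/
noncomputable def bwd (g : Pt.{u} ⊕ Sq.{u} → ℝ) (x : Pt.{u}) : ℝ :=
  g (Sum.inl x) - E (T fun x => g (Sum.inl x)) x + E (tt g) x

lemma tendsto_tt {g : Pt.{u} ⊕ Sq.{u} → ℝ} (hg : Continuous g) :
    Tendsto (tt g) atTop (𝓝 0) := by
  refine tendsto_merge (tendsto_T (hg.comp continuous_inl)) ?_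
  have h1 : Continuous fun y : Sq.{u} => g (Sum.inr y) := hg.comp continuous_inr
  rw [OnePoint.continuous_iff_from_discrete] at h1
  have h2 : Tendsto (ULift.up : ℕ → ULift.{u} ℕ) atTop cofinite := by
    rw [← Nat.cofinite_eq_atTop]
    exact ULift.up_injective.tendsto_cofinite
  have h3 := (h1.comp h2).sub_const (g (Sum.inr OnePoint.infty))
  simpa using h3

lemma continuous_bwd {g : Pt.{u} ⊕ Sq.{u} → ℝ} (hg : Continuous g) : Continuous (bwd g) := by
  have h1 : Continuous fun x : Pt.{u} => g (Sum.inl x) := hg.comp continuous_inl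
  exact (h1.sub (continuous_E (tendsto_T h1))).add (continuous_E (tendsto_tt hg))

lemma T_fwd (f : Pt.{u} → ℝ) (n : ℕ) : T (fun x => fwd f (Sum.inl x)) n = T f (2 * n) := by
  simp only [T, fwd, Sum.elim_inl, E_even, E_odd]
  ring

lemma tt_fwd (f : Pt.{u} → ℝ) : tt (fwd f) = T f := by
  have hT : (T fun x => fwd f (Sum.inl x)) = fun n => T f (2 * n) := funext (T_fwd f)
  funext m
  unfold tt
  rw [hT]
  rcases Nat.even_or_odd' m with ⟨k, rfl | rfl⟩
  · rw [merge_even]
  · rcases k with _ | k
    · rw [show 2 * 0 + 1 = 1 from rfl, merge_one]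
      simp [fwd, hS]
    · rw [show 2 * (k + 1) + 1 = 2 * k + 3 by ring, merge_odd]
      simp [fwd, hS]

lemma bwd_fwd (f : Pt.{u} → ℝ) : bwd (fwd f) = f := by
  have hT : (T fun x => fwd f (Sum.inl x)) = fun n => T f (2 * n) := funext (T_fwd f)
  funext x
  unfold bwd
  rw [tt_fwd, hT]
  simp [fwd]

lemma T_bwd (g : Pt.{u} ⊕ Sq.{u} → ℝ) : T (bwd g) = tt g := by
  funext n
  have : T (bwd g) n = (T fun x => g (Sum.inl x)) n - (T fun x => g (Sum.inl x)) n + tt g n := by
    simp only [T, bwd, E_even, E_odd]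
    ring
  rw [this]
  ring

lemma fwd_bwd (g : Pt.{u} ⊕ Sq.{u} → ℝ) : fwd (bwd g) = g := by
  funext y
  unfold fwd
  rw [T_bwd]
  rcases y with x | y
  · have h : (fun n => tt g (2 * n)) = T fun x => g (Sum.inl x) := by
      funext n
      simp [tt, merge_even]
    rw [Sum.elim_inl, h]
    unfold bwd
    ring
  · rw [Sum.elim_inr]
    induction y using OnePoint.rec with
    | infty => simp [hS, tt, merge_one]
    | coe n => simp [hS, tt, merge_one, merge_odd]

lemma continuous_E_T (x : Pt.{u}) (φ : ℕ → ℕ) :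
    Continuous fun f : {f : Pt.{u} → ℝ // Continuous f} => E (fun n => T f.1 (φ n)) x := by
  have hT : ∀ n, Continuous fun f : {f : Pt.{u} → ℝ // Continuous f} => T f.1 n := fun n =>
    ((continuous_apply _).comp continuous_subtype_val).sub
      ((continuous_apply _).comp continuous_subtype_val)
  rcases hx : idx x with _ | n
  · simpa [E, hx] using continuous_const
  · simpa [E, hx] using hT (φ n)

lemma continuous_tt (n : ℕ) :
    Continuous fun g : {g : Pt.{u} ⊕ Sq.{u} → ℝ // Continuous g} => tt g.1 n := by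
  have hev : ∀ y, Continuous fun g : {g : Pt.{u} ⊕ Sq.{u} → ℝ // Continuous g} => g.1 y :=
    fun y => (continuous_apply y).comp continuous_subtype_val
  unfold tt merge
  split_ifs with h1 h2
  · exact (hev _).sub (hev _)
  · exact hev _
  · exact (hev _).sub (hev _)

/-- The homeomorphism of the function spaces. -/
noncomputable def homeo : {f : Pt.{u} → ℝ // Continuous f} ≃ₜ
    {g : Pt.{u} ⊕ Sq.{u} → ℝ // Continuous g} where
  toFun f := ⟨fwd f.1, continuous_fwd f.2⟩
  invFun g := ⟨bwd g.1, continuous_bwd g.2⟩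
  left_inv f := Subtype.ext (bwd_fwd f.1)
  right_inv g := Subtype.ext (fwd_bwd g.1)
  continuous_toFun := by
    refine Continuous.subtype_mk (continuous_pi fun y => ?_) _
    have hev : ∀ x, Continuous fun f : {f : Pt.{u} → ℝ // Continuous f} => f.1 x :=
      fun x => (continuous_apply x).comp continuous_subtype_val
    have hT : ∀ n, Continuous fun f : {f : Pt.{u} → ℝ // Continuous f} => T f.1 n := fun n =>
      (hev _).sub (hev _)
    rcases y with x | y
    · exact ((hev x).sub (continuous_E_T x id)).add (continuous_E_T x fun n => 2 * n)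
    · induction y using OnePoint.rec with
      | infty => simpa [fwd, hS] using hT 1
      | coe n =>
        have h := (hT 1).add (hT (2 * n.down + 3))
        exact h
  continuous_invFun := by
    refine Continuous.subtype_mk (continuous_pi fun x => ?_) _
    have hev : ∀ y, Continuous fun g : {g : Pt.{u} ⊕ Sq.{u} → ℝ // Continuous g} => g.1 y :=
      fun y => (continuous_apply y).comp continuous_subtype_val
    have h1 : Continuous fun g : {g : Pt.{u} ⊕ Sq.{u} → ℝ // Continuous g} =>
        E (T fun x => g.1 (Sum.inl x)) x := by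
      rcases hx : idx x with _ | n
      · simpa [E, hx] using continuous_const
      · simp only [E, hx, T, Option.elim_some]
        exact (hev (Sum.inl (a (2 * n)))).sub (hev (Sum.inl (a (2 * n + 1))))
    have h2 : Continuous fun g : {g : Pt.{u} ⊕ Sq.{u} → ℝ // Continuous g} => E (tt g.1) x := by
      rcases hx : idx x with _ | n
      · simpa [E, hx] using continuous_const
      · simpa [E, hx] using continuous_tt n
    exact ((hev (Sum.inl x)).sub h1).add h2

instance t35Space_sum {X Y : Type u} [TopologicalSpace X] [TopologicalSpace Y] [T35Space X]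
    [T35Space Y] : T35Space (X ⊕ Y) where
  completely_regular := by
    intro z K hK hz
    rcases z with x | y
    · obtain ⟨f, hf, hfx, hfK⟩ := CompletelyRegularSpace.completely_regular x (Sum.inl ⁻¹' K)
        (hK.preimage continuous_inl) hz
      refine ⟨Sum.elim f fun _ => 1, hf.sumElim continuous_const, hfx, ?_⟩
      rintro (w | w) hw
      · exact hfK hw
      · rfl
    · obtain ⟨f, hf, hfx, hfK⟩ := CompletelyRegularSpace.completely_regular y (Sum.inr ⁻¹' K)
        (hK.preimage continuous_inr) hz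
      refine ⟨Sum.elim (fun _ => 1) f, continuous_const.sumElim hf, hfx, ?_⟩
      rintro (w | w) hw
      · rfl
      · exact hfK hw

/-- The non-closed countable set. -/
lemma not_isClosed_range :
    ¬ IsClosed (Set.range fun n : ULift.{u} ℕ => (Sum.inr (n : Sq.{u}) : Pt.{u} ⊕ Sq.{u})) := by
  intro h
  have h1 : IsClosed (Set.range ((↑) : ULift.{u} ℕ → Sq.{u})) := by
    have := h.preimage (continuous_inr (X := Pt.{u}) (Y := Sq.{u}))
    convert this using 1
    ext y
    simp
  have hinf : Infinite (ULift.{u} ℕ) := Equiv.ulift.infinite_iff.mpr inferInstance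
  have hnc : NoncompactSpace (ULift.{u} ℕ) := by
    rw [← not_compactSpace_iff]
    intro hcomp
    exact not_finite_iff_infinite.mpr hinf (finite_of_compact_of_discrete)
  have h2 : DenseRange ((↑) : ULift.{u} ℕ → Sq.{u}) := OnePoint.denseRange_coe
  have h3 := h1.closure_eq ▸ h2.closure_range
  have h4 : (OnePoint.infty : Sq.{u}) ∈ Set.range ((↑) : ULift.{u} ℕ → Sq.{u}) := by
    rw [h3]; trivial
  obtain ⟨n, hn⟩ := h4
  exact OnePoint.coe_ne_infty n hn

end Pool.Agent.Lib.MP_8bbda9_gt
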